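import Pool.Agent.H698.TT.Core
import Pool.Agent.H698.TT.Trades
import Pool.Agent.H698.TT.Interp
import Pool.Agent.H698.TT.Types
import Pool.Agent.H698.TT.Dom
import Pool.Agent.H698.TT.Rep
import Pool.Agent.H698.TT.Iso
import Pool.Agent.H698.TT.FamOne
import Pool.Agent.H698.TT.FamTwo

/-!
# MP_5465ec_co, Q2 (proved)

The complete simple games with three types of voters and two shift-minimal winning vectors which
are 2-trade robust but not 3-trade robust are, up to isomorphism, exactly the members of the
families `F1` and `F2` of the problem.

The definitions of simple games, completeness, types, shift-minimal winning vectors and trade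
robustness are those of the library file `TradeBasic.lean`; `rgame n R` (library file
`TradeVec.lean`) is the game on `n 0 + n 1 + n 2` voters, `n k` of them of type `k`, in which a
coalition wins iff its type vector dominates a vector of `R`; `n1`, `R1`, `n2`, `R2` are the
parameters of the two families.

Proof. Write a vector by its partial sums; the winning vectors are those above `A` or above `B`
(the two rows), the maximal losing ones are of five kinds, given by one or two upper bounds. For
each of the three sign patterns of `A - B`, each choice of three rows and each choice of three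
kinds of losing vectors (420 systems of linear inequalities) a trade of length three forces a trade
of length two, or (for two of the systems) a member of `F1` or `F2`. A weak trade of length two (an
inequality between the sums) can be made exact by moving single voters.
-/

namespace Pool.Agent.Results.MP_5465ec_co.ClassificationTwoNotThree

open Finset Pool.Agent.Q102.Trade Pool.Agent.H698.TT

/-- **Q2 of MP_5465ec_co (proved).** -/
theorem result :
    (∀ (N : Type) [Fintype N] [DecidableEq N] (W : Finset N → Prop),
      IsSimple W → Complete W → numTypes W = 3 → numShiftMin W = 2 →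
      TradeRobust 2 W → ¬ TradeRobust 3 W →
      (∃ k1 k2 k3 l : ℕ, Iso W (rgame (n1 k1 k2 k3 l) (R1 k1 k2 k3 l))) ∨
      ∃ k1 k2 l : ℕ, Iso W (rgame (n2 k1 k2 l) (R2 l))) ∧
    (∀ k1 k2 k3 l : ℕ, Good (n1 k1 k2 k3 l) (R1 k1 k2 k3 l)) ∧
    ∀ k1 k2 l : ℕ, Good (n2 k1 k2 l) (R2 l) :=
  ⟨fun N _ _ W h1 h2 h3 h4 h5 h6 =>
    assemble (noTwo interp) three (rep dom) (iso types) core N W h1 h2 h3 h4 h5 h6,
    famOne, famTwo⟩

end Pool.Agent.Results.MP_5465ec_co.ClassificationTwoNotThree
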